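import Pool.Agent.BC.Stmts

/-!
# NA: spaces with a bounded convex set without weak-to-norm continuity

Definitions for the part of the proof of the problem which is purely inside the space: basic
sequences built from blocks, trees, the case of a convex set `NN` with the property `N0` in a space
which is not B-convex.
-/

set_option autoImplicit false

open Finset Filter Topology

noncomputable section

namespace Pool.Agent.NA

open Pool.Agent.BC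

section

variable {X : Type} [NormedAddCommGroup X] [NormedSpace ℝ X]

/-- partial sums `∑_{k < n} a k z k` -/
def S (z : ℕ → X) (a : ℕ → ℝ) (n : ℕ) : X := ∑ k ∈ range n, a k • z k

/-- the vectors `z K, …, z (K' - 1)` form a good block over the old ones: `P` is the constant of the
projection onto the old ones, `C * P` the constant of the partial sums inside the block -/
def Lnk (C : ℝ) (z : ℕ → X) (K K' : ℕ) (P : ℝ) : Prop :=
  K ≤ K' ∧ 1 ≤ P ∧ (∀ k, K ≤ k → k < K' → z k ≠ 0) ∧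
    (∀ a : ℕ → ℝ, ‖S z a K‖ ≤ P * ‖S z a K'‖) ∧
    ∀ (a : ℕ → ℝ) (i : ℕ), K ≤ i → i ≤ K' → ‖S z a i‖ ≤ C * P * ‖S z a K'‖

/-- the span of the first `K` vectors -/
def sp (z : ℕ → X) (K : ℕ) : Submodule ℝ X := Submodule.span ℝ (z '' Set.Iio K)

variable (X) in
/-- the conclusion of the problem -/
def Yes : Prop :=
  ∃ Y : Submodule ℝ X, IsClosed (Y : Set X) ∧
    (∃ e : ℕ → X, (∀ i, e i ∈ Y) ∧
      ∀ y ∈ Y, ∃! a : ℕ → ℝ,
        Filter.Tendsto (fun n => ∑ i ∈ Finset.range n, a i • e i) Filter.atTop (nhds y)) ∧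
    ∃ f : ℝ → X, (∀ t, f t ∈ Y) ∧ (∃ K : NNReal, LipschitzWith K f) ∧
      ¬ (∀ᵐ t ∂MeasureTheory.volume, DifferentiableAt ℝ f t)

/-- the functionals `f j` of norm at most one norm the subspace `E` up to `1 - ζ` -/
def Nor (E : Submodule ℝ X) {b : ℕ} (f : Fin b → X →L[ℝ] ℝ) (ζ : ℝ) : Prop :=
  (∀ j, ‖f j‖ ≤ 1) ∧ ∀ e ∈ E, ∃ j, (1 - ζ) * ‖e‖ ≤ f j e

/-- bounded convex sets without point of weak-to-norm continuity, in a uniform form -/
def N0 (NN : Set X) (δ : ℝ) : Prop :=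
  0 < δ ∧ NN.Nonempty ∧ Convex ℝ NN ∧ (∀ u ∈ NN, ‖u‖ ≤ 1) ∧
    ∀ u ∈ NN, ∀ (k : ℕ) (f : Fin k → X →L[ℝ] ℝ) (η : ℝ), 0 < η →
      ∃ v ∈ NN, (∀ i, |f i (v - u)| < η) ∧ δ ≤ ‖v - u‖

variable (X) in
/-- reservoir: for finitely many functionals and every `M` there are `M` vectors of the ball which
are almost annihilated by the functionals and `1 / r`-equivalent to the basis of `ℓ₁^M` -/
def Rsv (r : ℝ) : Prop :=
  ∀ (ι : Type) [Fintype ι] (M : ℕ) (f : ι → X →L[ℝ] ℝ) (ζ : ℝ), 0 < ζ →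
    ∃ e : ℕ → X, (∀ i, ‖e i‖ ≤ 1) ∧ (∀ i j, |f j (e i)| ≤ ζ) ∧
      ∀ a : ℕ → ℝ, r * ∑ i ∈ range M, |a i| ≤ ‖∑ i ∈ range M, a i • e i‖

/-- the points `v r` (`r < n`) are generic one after the other: `v r - u` is almost monotone over
`E` and the previous differences -/
def Sg (E : Submodule ℝ X) (u : X) (ηs : ℕ → ℝ) (v : ℕ → X) (n : ℕ) : Prop :=
  ∀ r < n, ∀ e ∈ E ⊔ Submodule.span ℝ ((fun q => v q - u) '' Set.Iio r), ∀ a : ℝ,
    ‖e‖ ≤ (1 + ηs r) * ‖e + a • (v r - u)‖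

/-- the alternative (beta) -/
def Bet (NN : Set X) (δ ε : ℝ) (E : Submodule ℝ X) (u : X) (ηs : ℕ → ℝ) (k : ℕ) (v : ℕ → X) :
    Prop :=
  (∀ r < 2 ^ k, v r ∈ NN ∧ δ ≤ ‖v r - u‖) ∧ Sg E u ηs v (2 ^ k) ∧
    ‖((2 : ℝ) ^ k)⁻¹ • ∑ r ∈ range (2 ^ k), v r - u‖ ≤ ε

/-- the families of a sweep with the base point `u`: `v m j`, `j < 2 ^ s m`, `m < n`, chosen one
after the other; `Em m` contains the differences of the families before `m`, and is normed by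
`f m`, on which the later families are small -/
def Fam (NN : Set X) (δ : ℝ) (u : X) (n : ℕ) (ζ ρ : ℝ) (s : ℕ → ℕ) (v : ℕ → ℕ → X)
    (Em : ℕ → Submodule ℝ X) (b : ℕ → ℕ) (f : (m : ℕ) → Fin (b m) → X →L[ℝ] ℝ) : Prop :=
  Monotone Em ∧
    (∀ m < n, ∀ j < 2 ^ s m, v m j ∈ NN ∧ δ ≤ ‖v m j - u‖ ∧ v m j - u ∈ Em (m + 1)) ∧
    (∀ m ≤ n, Nor (Em m) (f m) ζ) ∧
    (∀ m ≤ n, ∀ i q, m ≤ q → q < n → ∀ j < 2 ^ s q, |f m i (v q j - u)| ≤ ζ) ∧
    ∀ m < n, ‖((2 : ℝ) ^ s m)⁻¹ • ∑ j ∈ range (2 ^ s m), v m j - u‖ ≤ ρ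

end

/-! ### averages over dyadic partitions of `{0, …, 2 ^ k - 1}` -/

/-- the `i`-th partition is between the dyadic partitions of the levels `κ = log₂ (i + 1)` and
`κ + 1`: the first `i + 1 - 2 ^ κ` intervals of the level `κ` are halved. The block of `l`. -/
def blk (k i l : ℕ) : Finset ℕ :=
  let κ := Nat.log 2 (i + 1)
  if l / 2 ^ (k - κ) < i + 1 - 2 ^ κ then
    (range (2 ^ k)).filter (fun l' => l' / 2 ^ (k - κ - 1) = l / 2 ^ (k - κ - 1))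
  else (range (2 ^ k)).filter (fun l' => l' / 2 ^ (k - κ) = l / 2 ^ (k - κ))

/-- the average of `φ` over the block of `l` -/
def Qv {V : Type} [AddCommGroup V] [Module ℝ V] (k i : ℕ) (φ : ℕ → V) (l : ℕ) : V :=
  (((blk k i l).card : ℝ))⁻¹ • ∑ l' ∈ blk k i l, φ l'

/-- the `m`-th coordinate of `l < 2 ^ (s 0 + … + s (n - 1))` (the coordinate `0` = the highest
bits) -/
def ix (s : ℕ → ℕ) (n m l : ℕ) : ℕ := l / 2 ^ (∑ q ∈ Ico (m + 1) n, s q) % 2 ^ s m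

/-- the vector of the leaf `l` in a product sweep -/
def lf {X : Type} [NormedAddCommGroup X] [NormedSpace ℝ X] (s : ℕ → ℕ) (n : ℕ) (c : ℝ)
    (D : ℕ → ℕ → X) (e : ℕ → X) (l : ℕ) : X :=
  ((n : ℝ))⁻¹ • ∑ m ∈ range n, D m (ix s n m l) + c • e l

/-- the centered families -/
def Dv {X : Type} [NormedAddCommGroup X] [NormedSpace ℝ X] (s : ℕ → ℕ) (v : ℕ → ℕ → X)
    (m j : ℕ) : X :=
  v m j - ((2 : ℝ) ^ s m)⁻¹ • ∑ j' ∈ range (2 ^ s m), v m j'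

/-- the result of the treatment of one leaf with the value `V`: the new leaves are
`V' m, u' m`, `m < 2 ^ k` -/
def Lef {X : Type} [NormedAddCommGroup X] [NormedSpace ℝ X] (C : ℝ) (NN : Set X) (z z' : ℕ → X)
    (K K' : ℕ) (η : ℝ) (V : X) (k : ℕ) (V' u' : ℕ → X) : Prop :=
  (∀ i < K, z' i = z i) ∧ K < K' ∧ Lnk C z' K K' (1 + η) ∧ 1 ≤ k ∧
    ∑ m ∈ range (2 ^ k), V' m = (2 : ℝ) ^ k • V ∧
    ∀ m < 2 ^ k, u' m ∈ NN ∧ V' m - V ∈ sp z' K'

/-- the two kinds of steps of a leaf `(V, u)` with the counter `b` to `(V', u')` with `b'` -/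
def Kin {X : Type} [NormedAddCommGroup X] [NormedSpace ℝ X] (δ ε ρ : ℝ) (V u : X) (b : ℕ)
    (V' u' : X) (b' : ℕ) : Prop :=
  (b' = b + 1 ∧ ‖(V' - u') - (V - u)‖ ≤ ε ∧ δ ≤ ‖u' - u‖) ∨
    (b' = b ∧ ‖(V' - u') - (V - u)‖ ≤ ρ ∧ ε ≤ ‖u' - u‖)

end Pool.Agent.NA
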