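import Pool.Agent.NA.Defs

/-!
# NA: the statements of the modules
-/

set_option autoImplicit false

open Finset Filter Topology MeasureTheory

noncomputable section

namespace Pool.Agent.NA

open Pool.Agent.BC

/-! ### links and the final lemma -/

/-- LNC: congruence and composition of links. (ii): for `i` between `K` and `K'`:
`‖S z a i‖ ≤ C P ‖S z a K'‖ ≤ C P P' ‖S z a K''‖`. (v): one vector. -/
def LncStmt : Prop := ∀ (X : Type) [NormedAddCommGroup X] [NormedSpace ℝ X] (C : ℝ), 1 ≤ C →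
  (∀ (z z' : ℕ → X) (K K' : ℕ) (P : ℝ), (∀ k < K', z' k = z k) → Lnk C z K K' P →
    Lnk C z' K K' P) ∧
  (∀ (z : ℕ → X) (K : ℕ), Lnk C z K K 1) ∧
  (∀ (z : ℕ → X) (K K' : ℕ) (P P' : ℝ), P ≤ P' → Lnk C z K K' P → Lnk C z K K' P') ∧
  (∀ (z : ℕ → X) (K K' K'' : ℕ) (P P' : ℝ), Lnk C z K K' P → Lnk C z K' K'' P' →
    Lnk C z K K'' (P * P')) ∧
  ∀ (z : ℕ → X) (K : ℕ) (P : ℝ), 1 ≤ P → z K ≠ 0 →
    (∀ e ∈ sp z K, ∀ a : ℝ, ‖e‖ ≤ P * ‖e + a • z K‖) → Lnk C z K (K + 1) P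

/-- LNI: infinitely many links. For `m ≤ n` replace `a` by `0` from `n` on, `m` in the block `p`, `n`
in the block `q`: `‖S m‖ ≤ C P_p ‖S κ_(p+1)‖ ≤ … ≤ C P_p … P_q ‖S κ_(q+1)‖`. -/
def LniStmt : Prop := ∀ (X : Type) [NormedAddCommGroup X] [NormedSpace ℝ X] (C : ℝ) (z : ℕ → X)
  (κ : ℕ → ℕ) (P : ℕ → ℝ), 1 ≤ C → κ 0 = 0 → StrictMono κ → (∀ n, ∏ i ∈ range n, P i ≤ 2) →
    (∀ i, Lnk C z (κ i) (κ (i + 1)) (P i)) →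
    (∀ k, z k ≠ 0) ∧ ∀ (a : ℕ → ℝ) (m n : ℕ), m ≤ n → ‖S z a m‖ ≤ 2 * C * ‖S z a n‖

/-- TRA: a regular tree of slopes gives a Lipschitz curve. `g_k(t) = ∫_0^t y k ⌊u * L k⌋ du` (for `t`
clamped to `[0, 1]`; or as a finite sum of clamps), `g_(k+1) = g_k` at the points `i / L k`,
`‖g_(k+1) - g_k‖ ≤ 2 / L k`, `g` = the limit. -/
def TraStmt : Prop := ∀ (X : Type) [NormedAddCommGroup X] [NormedSpace ℝ X] [CompleteSpace X]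
  (Z : Submodule ℝ X) (M L : ℕ → ℕ) (y : ℕ → ℕ → X), IsClosed (Z : Set X) → L 0 = 1 →
    (∀ k, L (k + 1) = L k * M k) → (∀ k, 2 ≤ M k) →
    (∀ k i, i < L k → y k i ∈ Z ∧ ‖y k i‖ ≤ 1) →
    (∀ k i, i < L k → ∑ m ∈ range (M k), y (k + 1) (i * M k + m) = (M k : ℝ) • y k i) →
    ∃ g : ℝ → X, (∀ t, g t ∈ Z) ∧ LipschitzWith 1 g ∧
      ∀ k i : ℕ, i < L k → (L k : ℝ) • (g (((i : ℝ) + 1) / L k) - g ((i : ℝ) / L k)) = y k i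

/-- TRE: `TRA`, and if `g` is differentiable at `t ∈ (0, 1)`, then the difference quotients of the
intervals `[i / L k, (i + 1) / L k)` containing `t`, `i = ⌊t * L k⌋`, tend to the derivative
(`L k ≥ 2 ^ k`). -/
def TreStmt : Prop := ∀ (X : Type) [NormedAddCommGroup X] [NormedSpace ℝ X] [CompleteSpace X]
  (Z : Submodule ℝ X) (M L : ℕ → ℕ) (y : ℕ → ℕ → X), IsClosed (Z : Set X) → L 0 = 1 →
    (∀ k, L (k + 1) = L k * M k) → (∀ k, 2 ≤ M k) →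
    (∀ k i, i < L k → y k i ∈ Z ∧ ‖y k i‖ ≤ 1) →
    (∀ k i, i < L k → ∑ m ∈ range (M k), y (k + 1) (i * M k + m) = (M k : ℝ) • y k i) →
    ∃ g : ℝ → X, (∀ t, g t ∈ Z) ∧ LipschitzWith 1 g ∧
      ∀ t ∈ Set.Ioo (0 : ℝ) 1, DifferentiableAt ℝ g t →
        ∃ v, Tendsto (fun k => y k ⌊t * L k⌋₊) atTop (𝓝 v)

/-- FNA: the final lemma. `Y` = closed span of `z`, `BC.SchStmt` for the basis, `TRE` for the tree
`(V k i - V 0 0) / (2 B)`; it is nowhere differentiable on `(0, 1)`. -/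
def FnaStmt : Prop := ∀ (X : Type) [NormedAddCommGroup X] [NormedSpace ℝ X] [CompleteSpace X]
  (z : ℕ → X) (C B : ℝ) (M L : ℕ → ℕ) (V : ℕ → ℕ → X), (∀ k, z k ≠ 0) →
    (∀ (a : ℕ → ℝ) (m n : ℕ), m ≤ n → ‖S z a m‖ ≤ C * ‖S z a n‖) → L 0 = 1 →
    (∀ k, L (k + 1) = L k * M k) → (∀ k, 2 ≤ M k) →
    (∀ k i, i < L k → ‖V k i‖ ≤ B ∧
      V k i - V 0 0 ∈ (Submodule.span ℝ (Set.range z)).topologicalClosure) →
    (∀ k i, i < L k → ∑ m ∈ range (M k), V (k + 1) (i * M k + m) = (M k : ℝ) • V k i) →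
    (∀ t ∈ Set.Ioo (0 : ℝ) 1, ¬ ∃ v, Tendsto (fun k => V k ⌊t * L k⌋₊) atTop (𝓝 v)) →
    Yes X

/-! ### tools inside the space -/

/-- NRM: finitely many functionals norm a finite-dimensional subspace up to `1 - ζ`. Compact sphere
of `E`, open sets `{e | 1 - ζ < f_y e}`, `f_y` a norming functional of `y` (`exists_dual_vector''`);
add `0` to get `b > 0`. -/
def NrmStmt : Prop := ∀ (X : Type) [NormedAddCommGroup X] [NormedSpace ℝ X] (E : Submodule ℝ X),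
  FiniteDimensional ℝ E → ∀ ζ : ℝ, 0 < ζ → ∃ (b : ℕ) (f : Fin b → X →L[ℝ] ℝ), Nor E f ζ

/-- CVX: `u` is in the closed convex hull of `D = {v ∈ NN | δ ≤ ‖v - u‖, |f i (v - u)| ≤ η}`:
otherwise separate by a functional `g` (`geometric_hahn_banach_point_closed`) and apply `N0` to `f`
and `g`. Then approximate the weights of a convex combination by dyadic numbers and repeat. -/
def CvxStmt : Prop := ∀ (X : Type) [NormedAddCommGroup X] [NormedSpace ℝ X] (NN : Set X) (δ : ℝ),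
  N0 NN δ → ∀ u ∈ NN, ∀ (ι : Type) [Fintype ι] (f : ι → X →L[ℝ] ℝ) (η ε : ℝ), 0 < η → 0 < ε →
    ∃ (s : ℕ) (v : ℕ → X), (∀ l < 2 ^ s, v l ∈ NN ∧ δ ≤ ‖v l - u‖ ∧ ∀ i, |f i (v l - u)| ≤ η) ∧
      ‖((2 : ℝ) ^ s)⁻¹ • ∑ l ∈ range (2 ^ s), v l - u‖ ≤ ε

/-- FAM: the families of a sweep exist. `Em 0 = E`, `Em (m + 1) = Em m ⊔ span (v m j - u)`
(constant after `n`), `f m` from NRM for `Em m`, the family `m` from CVX for all the functionals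
`f m' i`, `m' ≤ m` (index type `(m' : Fin (m + 1)) × Fin (b m')`). -/
def FamStmt : Prop := ∀ (X : Type) [NormedAddCommGroup X] [NormedSpace ℝ X] (NN : Set X) (δ : ℝ),
  N0 NN δ → ∀ u ∈ NN, ∀ (E : Submodule ℝ X), FiniteDimensional ℝ E → ∀ (n : ℕ) (ζ ρ : ℝ),
    0 < ζ → 0 < ρ →
    ∃ (s : ℕ → ℕ) (v : ℕ → ℕ → X) (Em : ℕ → Submodule ℝ X) (b : ℕ → ℕ)
      (f : (m : ℕ) → Fin (b m) → X →L[ℝ] ℝ), Em 0 = E ∧ Fam NN δ u n ζ ρ s v Em b f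

/-- SGP: one new vector over a normed subspace. If `‖e + a w‖ ≤ ‖e‖` then `|a| δ ≤ 2 ‖e‖` and
`‖e + a w‖ ≥ f (e + a w) ≥ (1 - ζ) ‖e‖ - ζ |a|`. -/
def SgpStmt : Prop := ∀ (X : Type) [NormedAddCommGroup X] [NormedSpace ℝ X] (E : Submodule ℝ X)
  (b : ℕ) (f : Fin b → X →L[ℝ] ℝ) (ζ δ η : ℝ) (w : X), 0 < ζ → 0 < δ → 0 < η → η ≤ 1 →
    ζ * (1 + 2 / δ) ≤ η / 2 → Nor E f ζ → (∀ j, |f j w| ≤ ζ) → δ ≤ ‖w‖ →
    ∀ e ∈ E, ∀ a : ℝ, ‖e‖ ≤ (1 + η) * ‖e + a • w‖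

/-! ### the Haar system and the sweep -/

/-- HAA: the Haar system of `{0, …, 2 ^ k - 1}`: `h j` (`j + 1 = 2 ^ κ + r`) is `1` on the left half
of the `r`-th interval of the level `κ` and `-1` on the right half. Partial sums are the averages
over the partitions `blk`. -/
def HaaStmt : Prop := ∀ k : ℕ, ∃ h : ℕ → ℕ → ℝ,
  (∀ a : ℕ → ℝ, ∑ l ∈ range (2 ^ k), a l = 0 →
    ∃ β : ℕ → ℝ, ∀ l < 2 ^ k, a l = ∑ j ∈ range (2 ^ k - 1), β j * h j l) ∧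
  (∀ j < 2 ^ k - 1, ∑ l ∈ range (2 ^ k), h j l = 0 ∧ ∃ l < 2 ^ k, h j l ≠ 0) ∧
  ∀ (β : ℕ → ℝ) (i : ℕ), i ≤ 2 ^ k - 1 → ∀ l < 2 ^ k,
    ∑ j ∈ range i, β j * h j l = Qv k i (fun l' => ∑ j ∈ range (2 ^ k - 1), β j * h j l') l

/-- BLK: a block from its coordinates. `z' (K + j) = ∑_l h j l • D l` for the Haar system `h`. For
`a` let `α l = ∑_j a (K + j) h j l`; `S z' a (K + i) = S z a K + ∑_l (Qv k i α l) • D l`. As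
`∑ D l = 0`, `D l = ∑_l' (δ_(l l') - 2⁻ᵏ) D l'` is in the span. -/
def BlkStmt : Prop := ∀ (X : Type) [NormedAddCommGroup X] [NormedSpace ℝ X] (z : ℕ → X) (K k : ℕ)
  (D : ℕ → X) (C c P : ℝ), 0 < c → 1 ≤ P → ∑ l ∈ range (2 ^ k), D l = 0 →
    (∀ (a α : ℕ → ℝ), ∑ l ∈ range (2 ^ k), α l = 0 →
      ‖S z a K‖ ≤ P * ‖S z a K + ∑ l ∈ range (2 ^ k), α l • D l‖ ∧
      c * ∑ l ∈ range (2 ^ k), |α l| ≤ ‖S z a K + ∑ l ∈ range (2 ^ k), α l • D l‖ ∧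
      ∀ i ≤ 2 ^ k - 1, ‖S z a K + ∑ l ∈ range (2 ^ k), Qv k i α l • D l‖ ≤
        C * P * ‖S z a K + ∑ l ∈ range (2 ^ k), α l • D l‖) →
    ∃ z' : ℕ → X, (∀ i < K, z' i = z i) ∧ Lnk C z' K (K + (2 ^ k - 1)) P ∧
      ∀ l < 2 ^ k, D l ∈ sp z' (K + (2 ^ k - 1))

/-- QAA: averages over the partitions. The averaging is self-adjoint; it contracts the `ℓ₁` norm,
preserves the sum, and does not increase bounds. -/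
def QaaStmt : Prop :=
  (∀ (V : Type) [NormedAddCommGroup V] [NormedSpace ℝ V] (k i : ℕ) (α : ℕ → ℝ) (φ : ℕ → V),
    i ≤ 2 ^ k - 1 →
    ∑ l ∈ range (2 ^ k), Qv k i α l • φ l = ∑ l ∈ range (2 ^ k), α l • Qv k i φ l) ∧
  (∀ (k i : ℕ) (α : ℕ → ℝ), i ≤ 2 ^ k - 1 →
    ∑ l ∈ range (2 ^ k), |Qv k i α l| ≤ ∑ l ∈ range (2 ^ k), |α l| ∧
    ∑ l ∈ range (2 ^ k), Qv k i α l = ∑ l ∈ range (2 ^ k), α l) ∧
  ∀ (V : Type) [NormedAddCommGroup V] [NormedSpace ℝ V] (k i : ℕ) (φ : ℕ → V) (B : ℝ),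
    i ≤ 2 ^ k - 1 → (∀ l < 2 ^ k, ‖φ l‖ ≤ B) → ∀ l < 2 ^ k, ‖Qv k i φ l‖ ≤ B

/-- QAC: averages of a function of a coordinate: let `k = ∑_{q<n} s q`, `κ = log₂ (i + 1)`, `m` with
`∑_{q<m} s q ≤ κ < ∑_{q≤m} s q` (`m = n` if `κ = k`): the coordinates `q < m` are constant on the
blocks, and for `q > m` every block contains every value of the coordinate `q` equally often. -/
def QacStmt : Prop :=
  ∀ (V : Type) [NormedAddCommGroup V] [NormedSpace ℝ V] (s : ℕ → ℕ) (n i : ℕ) (D : ℕ → ℕ → V),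
    (∀ q < n, ∑ j ∈ range (2 ^ s q), D q j = 0) → i ≤ 2 ^ (∑ q ∈ range n, s q) - 1 →
    ∃ m ≤ n, ∀ l < 2 ^ (∑ q ∈ range n, s q),
      (∀ q < m, Qv (∑ q ∈ range n, s q) i (fun l' => D q (ix s n q l')) l = D q (ix s n q l)) ∧
      ∀ q, m < q → q < n →
        Qv (∑ q ∈ range n, s q) i (fun l' => D q (ix s n q l')) l = 0

/-- IXL: the coordinates: `ix s n m l < 2 ^ s m`, and the sum of a function of a coordinate over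
`l < 2 ^ k` is `2 ^ (k - s m)` times the sum over the values. -/
def IxlStmt : Prop := ∀ (s : ℕ → ℕ) (n m : ℕ), m < n → (∀ l, ix s n m l < 2 ^ s m) ∧
  ∀ (V : Type) [AddCommGroup V] [Module ℝ V] (φ : ℕ → V),
    ∑ l ∈ range (2 ^ (∑ q ∈ range n, s q)), φ (ix s n m l) =
      ((2 : ℝ) ^ (∑ q ∈ range n, s q) / 2 ^ s m) • ∑ j ∈ range (2 ^ s m), φ j

/-- the hypotheses of `SWA`, `SWB` -/
def Swh {X : Type} [NormedAddCommGroup X] [NormedSpace ℝ X] (n : ℕ) (r c ζ η : ℝ)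
    (s : ℕ → ℕ) (D : ℕ → ℕ → X) (e : ℕ → X) (Em : ℕ → Submodule ℝ X) (b : ℕ → ℕ)
    (f : (m : ℕ) → Fin (b m) → X →L[ℝ] ℝ) : Prop :=
  1 ≤ n ∧ 32 ≤ n * c ∧ 0 < r ∧ r ≤ 1 ∧ 0 < c ∧ c ≤ 1 ∧
    0 < η ∧ η ≤ 1 / 10 ∧ 0 < ζ ∧ ζ ≤ c * r * η / 100 ∧ Monotone Em ∧
    (∀ m < n, ∀ j < 2 ^ s m, ‖D m j‖ ≤ 2 ∧ D m j ∈ Em (m + 1)) ∧
    (∀ m < n, ∑ j ∈ range (2 ^ s m), D m j = 0) ∧ (∀ i, ‖e i‖ ≤ 1) ∧
    (∀ a : ℕ → ℝ, r * ∑ i ∈ range (2 ^ (∑ q ∈ range n, s q)), |a i| ≤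
      ‖∑ i ∈ range (2 ^ (∑ q ∈ range n, s q)), a i • e i‖) ∧
    (∀ m ≤ n, Nor (Em m) (f m) ζ) ∧
    (∀ m ≤ n, ∀ i q, m ≤ q → q < n → ∀ j < 2 ^ s q, |f m i (D q j)| ≤ ζ) ∧
    ∀ m ≤ n, ∀ i l, |f m i (e l)| ≤ ζ

/-- SWA: the block of a product sweep (`r` = constant of the reservoir). Let `sα = ∑ |α l|`,
`T = (1/n) ∑_m ∑_l α l D m (ix l)`, `h = c ∑ α l e l`, `v = e₀ + T ∈ Em n`, `y = v + h`. `f n`:
`‖y‖ ≥ (1 - ζ) ‖v‖ - c ζ sα`, and `‖h‖ ≥ c r sα`, so `c r sα ≤ 2.04 ‖y‖`. `f m` (for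
`w = e₀ + (1/n) ∑_{q<m} ∑ α l D q ∈ Em m`): `‖y‖ ≥ (1 - ζ) ‖w‖ - 2 ζ sα`. -/
def SwaStmt : Prop := ∀ (X : Type) [NormedAddCommGroup X] [NormedSpace ℝ X] (n : ℕ) (r c ζ η : ℝ)
  (s : ℕ → ℕ) (D : ℕ → ℕ → X) (e : ℕ → X) (Em : ℕ → Submodule ℝ X) (b : ℕ → ℕ)
  (f : (m : ℕ) → Fin (b m) → X →L[ℝ] ℝ), Swh n r c ζ η s D e Em b f →
    ∀ e₀ ∈ Em 0, ∀ α : ℕ → ℝ,
      (∀ m ≤ n, ‖e₀ + ((n : ℝ))⁻¹ • ∑ q ∈ range m, ∑ l ∈ range (2 ^ (∑ q ∈ range n, s q)),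
          α l • D q (ix s n q l)‖ ≤ (1 + η) *
        ‖e₀ + ∑ l ∈ range (2 ^ (∑ q ∈ range n, s q)), α l • lf s n c D e l‖) ∧
      c * r / 4 * ∑ l ∈ range (2 ^ (∑ q ∈ range n, s q)), |α l| ≤
        ‖e₀ + ∑ l ∈ range (2 ^ (∑ q ∈ range n, s q)), α l • lf s n c D e l‖

/-- SWB: the partial sums of the block. By `QAA` the vector is
`e₀ + ∑ α l • (average of lf over the block of l)`; by `QAC` the terms `q < m` are those of `SWA`,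
the terms `q > m` vanish, the term `q = m` is at most `(2/n) sα ≤ c sα / 16`, the `e` part at most
`c sα ≤ (4 / r) ‖y‖` (`SWA`); `1.1 + (17/16) 4 / r ≤ 6 / r`. -/
def SwbStmt : Prop := ∀ (X : Type) [NormedAddCommGroup X] [NormedSpace ℝ X] (n : ℕ) (r c ζ η : ℝ)
  (s : ℕ → ℕ) (D : ℕ → ℕ → X) (e : ℕ → X) (Em : ℕ → Submodule ℝ X) (b : ℕ → ℕ)
  (f : (m : ℕ) → Fin (b m) → X →L[ℝ] ℝ), Swh n r c ζ η s D e Em b f →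
    ∀ e₀ ∈ Em 0, ∀ α : ℕ → ℝ, ∀ i ≤ 2 ^ (∑ q ∈ range n, s q) - 1,
        ‖e₀ + ∑ l ∈ range (2 ^ (∑ q ∈ range n, s q)),
            Qv (∑ q ∈ range n, s q) i α l • lf s n c D e l‖ ≤
          6 / r * ‖e₀ + ∑ l ∈ range (2 ^ (∑ q ∈ range n, s q)), α l • lf s n c D e l‖

/-! ### one leaf -/

/-- BLF: the leaf step in the case (beta): `z' (K + r) = v r - u`, `V' m = V + v m - avg v`,
`u' m = v m`. (`k ≥ 1` since `ε < δ`; `LNC` for the `2 ^ k` links with the constants `1 + ηs r`.) -/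
def BlfStmt : Prop := ∀ (X : Type) [NormedAddCommGroup X] [NormedSpace ℝ X] (C : ℝ) (NN : Set X)
  (δ ε η : ℝ) (z : ℕ → X) (K : ℕ) (V u : X) (ηs : ℕ → ℝ) (k : ℕ) (v : ℕ → X), 1 ≤ C →
    0 < δ → ε < δ →
    0 < η → (∀ r, 0 ≤ ηs r) → (∀ n, ∏ r ∈ range n, (1 + ηs r) ≤ 1 + η) →
    Bet NN δ ε (sp z K) u ηs k v →
    ∃ (z' : ℕ → X) (K' : ℕ) (V' u' : ℕ → X), Lef C NN z z' K K' η V k V' u' ∧
      ∀ m < 2 ^ k, ‖(V' m - u' m) - (V - u)‖ ≤ ε ∧ δ ≤ ‖u' m - u‖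

/-- ALA: the block of a sweep which starts from `sp z K`. `Rsv` for all the functionals `f m i`,
`m ≤ n` (index type `(m : Fin (n + 1)) × Fin (b m)`), `M = 2 ^ k`, `k = ∑ s q`; `Swh` for
`D = Dv s v` (`‖D‖ ≤ 2`, `|f m i (D q j)| ≤ 2 ζ'`, where `ζ = 2 ζ'`), `SWA`, `SWB`; `BLK` with
`D l = lf l - avg lf`, `C = 6 / r`, `P = 1 + η`, as `∑ α l = 0` and `∑ Qv α l = 0` (`QAA`). -/
def AlaStmt : Prop := ∀ (X : Type) [NormedAddCommGroup X] [NormedSpace ℝ X] (r : ℝ), 0 < r →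
  r ≤ 1 → Rsv X r → ∀ (NN : Set X) (δ : ℝ) (u : X) (n : ℕ) (c ζ ρ η : ℝ) (s : ℕ → ℕ)
    (v : ℕ → ℕ → X) (Em : ℕ → Submodule ℝ X) (b : ℕ → ℕ)
    (f : (m : ℕ) → Fin (b m) → X →L[ℝ] ℝ) (z : ℕ → X) (K : ℕ), (∀ v ∈ NN, ‖v‖ ≤ 1) →
    1 ≤ n → 32 ≤ n * c → 0 < c → c ≤ 1 → 0 < η → η ≤ 1 / 10 → 0 < ζ →
    2 * ζ ≤ c * r * η / 100 → Em 0 = sp z K → Fam NN δ u n ζ ρ s v Em b f →
    ∃ e z' : ℕ → X, (∀ i, ‖e i‖ ≤ 1) ∧ (∀ i < K, z' i = z i) ∧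
      Lnk (6 / r) z' K (K + (2 ^ (∑ q ∈ range n, s q) - 1)) (1 + η) ∧
      ∀ l < 2 ^ (∑ q ∈ range n, s q), lf s n c (Dv s v) e l -
        ((2 : ℝ) ^ (∑ q ∈ range n, s q))⁻¹ • ∑ l' ∈ range (2 ^ (∑ q ∈ range n, s q)),
          lf s n c (Dv s v) e l' ∈ sp z' (K + (2 ^ (∑ q ∈ range n, s q) - 1))

/-- ALC: if (beta) fails, every end point of the sweep is displaced. `SGP` with
`η = min (ηs r) 1`, `E = Em r` (contains `sp z K` and the `v q j - u`, `q < r`) gives `Sg` for the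
sequence `fun m => v m (ix s n m l)`, `m < n = 2 ^ κ`; `Bet` fails, so its mean has a distance
larger than `ε`. -/
def AlcStmt : Prop := ∀ (X : Type) [NormedAddCommGroup X] [NormedSpace ℝ X] (NN : Set X)
  (δ ε ζ ρ : ℝ) (u : X) (κ : ℕ) (s : ℕ → ℕ) (v : ℕ → ℕ → X) (Em : ℕ → Submodule ℝ X)
  (b : ℕ → ℕ) (f : (m : ℕ) → Fin (b m) → X →L[ℝ] ℝ) (E : Submodule ℝ X) (ηs : ℕ → ℝ), 0 < δ →
    0 < ζ → (∀ r < 2 ^ κ, 0 < ηs r ∧ ζ * (1 + 2 / δ) ≤ min (ηs r) 1 / 2) → Em 0 = E →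
    Fam NN δ u (2 ^ κ) ζ ρ s v Em b f → (¬ ∃ (k : ℕ) (v : ℕ → X), Bet NN δ ε E u ηs k v) →
    ∀ l, ε ≤ ‖(((2 ^ κ : ℕ) : ℝ))⁻¹ • ∑ m ∈ range (2 ^ κ), v m (ix s (2 ^ κ) m l) - u‖

/-- ALF: the leaf step if (beta) fails. `n = 2 ^ κ` large, `c = 32 / n`, `2 c ≤ ρ / 2`, `ζ` small,
`FAM` (with `ρ' = min (ρ / 2) (δ / 2)`), `ALA`, `ALC`. `V' l = V + lf l - avg lf`,
`u' l = (1/n) ∑_m v m (ix l) ∈ NN`, `avg lf = c • avg e` (`IXL`),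
`(V' l - u' l) - (V - u) = u - (1/n) ∑_m avg v m + c • e l - c • avg e`. `∑ q, s q ≥ 1` since
one vector `v m 0` alone has the distance `≥ δ > ρ'`. (`N0` gives `δ ≤ 2`.) -/
def AlfStmt : Prop := ∀ (X : Type) [NormedAddCommGroup X] [NormedSpace ℝ X] (r : ℝ), 0 < r →
  r ≤ 1 → Rsv X r → ∀ (NN : Set X) (δ : ℝ), N0 NN δ →
    ∀ (ε ρ η : ℝ) (z : ℕ → X) (K : ℕ) (V u : X) (ηs : ℕ → ℝ),
    u ∈ NN → 0 < ε → 0 < ρ → 0 < η → η ≤ 1 / 10 → (∀ r, 0 < ηs r) →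
    (¬ ∃ (k : ℕ) (v : ℕ → X), Bet NN δ ε (sp z K) u ηs k v) →
    ∃ (z' : ℕ → X) (K' k : ℕ) (V' u' : ℕ → X), Lef (6 / r) NN z z' K K' η V k V' u' ∧
      ∀ m < 2 ^ k, ‖(V' m - u' m) - (V - u)‖ ≤ ρ ∧ ε ≤ ‖u' m - u‖

/-- LEF: one leaf, `BLF` or `ALF` with `ηs r = η / 4 ^ (r + 1)`. -/
def LefStmt : Prop := ∀ (X : Type) [NormedAddCommGroup X] [NormedSpace ℝ X] (r : ℝ), 0 < r →
  r ≤ 1 → Rsv X r → ∀ (NN : Set X) (δ : ℝ), N0 NN δ →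
    ∀ (ε ρ η : ℝ) (z : ℕ → X) (K : ℕ) (V u : X) (bt : ℕ),
    u ∈ NN → 0 < ε → ε < δ → 0 < ρ → 0 < η → η ≤ 1 / 10 →
    ∃ (z' : ℕ → X) (K' k : ℕ) (V' u' : ℕ → X) (bt' : ℕ), Lef (6 / r) NN z z' K K' η V k V' u' ∧
      ∀ m < 2 ^ k, Kin δ ε ρ V u bt (V' m) (u' m) bt'

/-! ### the run -/

/-- GEP: the leaves `i < L` with the counters `bt i` and the thresholds `εf (bt i)` are treated one
after the other by `LEF` (`η' = η / 2 ^ (i + 2)`, `LNC`): induction on `L`. -/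
def GepStmt : Prop := ∀ (X : Type) [NormedAddCommGroup X] [NormedSpace ℝ X] (r : ℝ), 0 < r →
  r ≤ 1 → Rsv X r → ∀ (NN : Set X) (δ : ℝ), N0 NN δ →
    ∀ (εf : ℕ → ℝ) (ρ η : ℝ) (z : ℕ → X) (K L : ℕ)
    (V u : ℕ → X) (bt : ℕ → ℕ), (∀ i < L, u i ∈ NN) → 1 ≤ L → (∀ b, 0 < εf b ∧ εf b < δ) →
    0 < ρ → 0 < η → η ≤ 1 / 10 →
    ∃ (z' : ℕ → X) (K' : ℕ) (kk : ℕ → ℕ) (V' u' : ℕ → ℕ → X) (bt' : ℕ → ℕ),
      (∀ i < K, z' i = z i) ∧ K < K' ∧ Lnk (6 / r) z' K K' (1 + η) ∧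
      ∀ i < L, 1 ≤ kk i ∧ ∑ m ∈ range (2 ^ kk i), V' i m = (2 : ℝ) ^ kk i • V i ∧
        ∀ m < 2 ^ kk i, u' i m ∈ NN ∧ V' i m - V i ∈ sp z' K' ∧
          Kin δ (εf (bt i)) ρ (V i) (u i) (bt i) (V' i m) (u' i m) (bt' i)

/-- GEN: one generation with the same number of children: `k = max kk i`, the child `i * 2 ^ k + m`
is the child `m % 2 ^ kk i` of `i`. -/
def GenStmt : Prop := ∀ (X : Type) [NormedAddCommGroup X] [NormedSpace ℝ X] (r : ℝ), 0 < r →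
  r ≤ 1 → Rsv X r → ∀ (NN : Set X) (δ : ℝ), N0 NN δ →
    ∀ (εf : ℕ → ℝ) (ρ η : ℝ) (z : ℕ → X) (K L : ℕ)
    (V u : ℕ → X) (bt : ℕ → ℕ), (∀ i < L, u i ∈ NN) → 1 ≤ L → (∀ b, 0 < εf b ∧ εf b < δ) →
    0 < ρ → 0 < η → η ≤ 1 / 10 →
    ∃ (z' : ℕ → X) (K' k : ℕ) (V' u' : ℕ → X) (bt' : ℕ → ℕ), (∀ i < K, z' i = z i) ∧ K < K' ∧
      Lnk (6 / r) z' K K' (1 + η) ∧ 1 ≤ k ∧
      ∀ i < L, ∑ m ∈ range (2 ^ k), V' (i * 2 ^ k + m) = (2 : ℝ) ^ k • V i ∧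
        ∀ m < 2 ^ k, u' (i * 2 ^ k + m) ∈ NN ∧ V' (i * 2 ^ k + m) - V i ∈ sp z' K' ∧
          Kin δ (εf (bt i)) ρ (V i) (u i) (bt i) (V' (i * 2 ^ k + m)) (u' (i * 2 ^ k + m))
            (bt' (i * 2 ^ k + m))

/-- BRN: one branch. `b k ≤ k`. Bound: the steps of the first kind have different `b`, so their
errors sum up to at most `δ / 8`, the others to at most `δ / 64`. If `V` converges then
`‖V (k + 1) - V k‖ → 0`, but it is at least `δ - δ / 16` for the first kind, so `b` is eventually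
constant, and then it is at least `δ / 2 ^ (b + 4) - δ / 2 ^ (k + 7)`. -/
def BrnStmt : Prop := ∀ (X : Type) [NormedAddCommGroup X] [NormedSpace ℝ X] (δ : ℝ)
  (V u : ℕ → X) (b : ℕ → ℕ), 0 < δ → b 0 = 0 →
    (∀ k, Kin δ (δ / 2 ^ (b k + 4)) (δ / 2 ^ (k + 7)) (V k) (u k) (b k) (V (k + 1)) (u (k + 1))
      (b (k + 1))) →
    (¬ ∃ v, Tendsto V atTop (𝓝 v)) ∧ ∀ k, ‖V k - u k‖ ≤ ‖V 0 - u 0‖ + δ

/-- TRN: the theorem for the sets `N0`. Iterate `GEN` with `εf b = δ / 2 ^ (b + 4)`,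
`ρ_k = δ / 2 ^ (k + 7)`, `η_k = 1 / 2 ^ (k + 4)` from `K = 0`, `L = 1`, `V = u`; `LNI`
(`C = 6 / r`), `FNA` with `M k = 2 ^ k_k`; `BRN` along the branch `i_k = ⌊t * L k⌋`
(`i_(k+1) / M k = i_k`), `‖V‖ ≤ 1 + δ`. -/
def TrnStmt : Prop := ∀ (X : Type) [NormedAddCommGroup X] [NormedSpace ℝ X] [CompleteSpace X]
  (r : ℝ), 0 < r → r ≤ 1 → Rsv X r → ∀ (NN : Set X) (δ : ℝ), N0 NN δ → Yes X

end Pool.Agent.NA
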